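import Mathlib

namespace H78Gw

open Real

/-- growth of order e with a factor of the form 2 to the root of the logarithm -/
def Gr (e : ℝ) (P : ℕ → ℕ → Prop) : Prop :=
  ∃ K : ℝ, 0 ≤ K ∧ ∀ L : ℕ, 1 ≤ L →
    ∃ m : ℕ, (m : ℝ) ≤ K * (L : ℝ) ^ e * (2 : ℝ) ^ (K * √(Real.logb 2 L)) ∧ P L m

theorem sqrt_add_le' {x y : ℝ} (hx : 0 ≤ x) (hy : 0 ≤ y) : √(x + y) ≤ √x + √y := by
  rw [Real.sqrt_le_left (by positivity)]
  have h1 := Real.sq_sqrt hx
  have h2 := Real.sq_sqrt hy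
  nlinarith [Real.sqrt_nonneg x, Real.sqrt_nonneg y, mul_nonneg (Real.sqrt_nonneg x) (Real.sqrt_nonneg y)]

theorem one_le_two_rpow {x : ℝ} (hx : 0 ≤ x) : 1 ≤ (2 : ℝ) ^ x :=
  Real.one_le_rpow (by norm_num) hx

theorem two_rpow_mono {x y : ℝ} (h : x ≤ y) : (2 : ℝ) ^ x ≤ (2 : ℝ) ^ y :=
  Real.rpow_le_rpow_of_exponent_le (by norm_num) h

/-- a power of two q with K (b q) ^ e' 2 ^ (K √ log (b q)) ≤ q ^ e / 2 -/
theorem exists_q {b : ℕ} {K e' e : ℝ} (hb : 1 ≤ b) (hK : 0 ≤ K) (he' : 0 ≤ e') (hee : e' < e) :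
    ∃ q : ℕ, 2 ≤ q ∧
      K * ((b * q : ℕ) : ℝ) ^ e' * (2 : ℝ) ^ (K * √(Real.logb 2 ((b * q : ℕ) : ℝ))) ≤
        (1 / 2) * (q : ℝ) ^ e := by
  set β : ℝ := Real.logb 2 b with hβ
  have hβ0 : 0 ≤ β := Real.logb_nonneg (by norm_num) (by exact_mod_cast hb)
  have hd : 0 < e - e' := by linarith
  -- K + 1 ≤ 2 ^ (K + 1)
  have hK2 : K ≤ (2 : ℝ) ^ (K + 1) := by
    have h1 : (1 : ℝ) + (K + 1) * 1 ≤ (1 + 1) ^ (K + 1) := by
      have := one_add_mul_self_le_rpow_one_add (s := (1 : ℝ)) (by norm_num) (p := K + 1) (by linarith)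
      linarith [this]
    have h2 : ((1 : ℝ) + 1) = 2 := by norm_num
    rw [h2] at h1
    linarith
  -- x with K + 1 + 1 + e' β + K √ (β + x) ≤ (e - e') x
  obtain ⟨x, hx⟩ : ∃ x : ℕ, 1 ≤ x ∧ (K + 1) + 1 + e' * β + K * √(β + x) ≤ (e - e') * x := by
    -- √ (β + x) ≤ √ β + √ x ; take √x ≥ (K+1+1+e'β+K√β+K)/(e-e') + 1
    set M : ℝ := ((K + 1) + 1 + e' * β + K * √β + K) / (e - e') with hM
    have hM0 : 0 ≤ M := by
      have : 0 ≤ e' * β := mul_nonneg he' hβ0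
      have : 0 ≤ K * √β := mul_nonneg hK (Real.sqrt_nonneg _)
      apply div_nonneg _ hd.le
      positivity
    obtain ⟨s, hs⟩ := exists_nat_ge (M + 1)
    refine ⟨s ^ 2, ?_, ?_⟩
    · have : 1 ≤ s := by
        have : (1 : ℝ) ≤ s := by linarith
        exact_mod_cast this
      exact Nat.one_le_pow _ _ this
    · have hs1 : (1 : ℝ) ≤ s := by linarith
      have h1 : √(β + ((s ^ 2 : ℕ) : ℝ)) ≤ √β + s := by
        have h := sqrt_add_le' hβ0 (show (0 : ℝ) ≤ ((s ^ 2 : ℕ) : ℝ) by positivity)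
        have h2 : √(((s ^ 2 : ℕ) : ℝ)) = s := by
          push_cast
          exact Real.sqrt_sq (by linarith)
        rw [h2] at h
        exact h
      have h2 : K * √(β + ((s ^ 2 : ℕ) : ℝ)) ≤ K * (√β + s) := mul_le_mul_of_nonneg_left h1 hK
      have h3 : (K + 1) + 1 + e' * β + K * √β + K = M * (e - e') := by
        rw [hM]; field_simp
      have h4 : (0 : ℝ) ≤ (K + 1) + 1 + e' * β + K * √β := by
        have : 0 ≤ e' * β := mul_nonneg he' hβ0
        have : 0 ≤ K * √β := mul_nonneg hK (Real.sqrt_nonneg _)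
        positivity
      have h5 : (K + 1) + 1 + e' * β + K * √β + K * s ≤ M * (e - e') * s := by
        rw [← h3]
        nlinarith
      have h6 : M * (e - e') * s ≤ (e - e') * ((s ^ 2 : ℕ) : ℝ) := by
        push_cast
        have h7 : M ≤ s := by linarith
        have h8 : M * s ≤ s * s := mul_le_mul_of_nonneg_right h7 (by linarith)
        nlinarith
      linarith
  refine ⟨2 ^ x, ?_, ?_⟩
  · calc 2 = 2 ^ 1 := by norm_num
      _ ≤ 2 ^ x := Nat.pow_le_pow_right (by norm_num) hx.1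
  · have hbpos : (0 : ℝ) < b := by exact_mod_cast hb
    have hbx : ((b * 2 ^ x : ℕ) : ℝ) = (2 : ℝ) ^ (β + x) := by
      push_cast
      rw [Real.rpow_add (by norm_num), Real.rpow_natCast, hβ,
        Real.rpow_logb (by norm_num) (by norm_num) hbpos]
    rw [hbx, Real.logb_rpow (by norm_num) (by norm_num)]
    have h2x : ((2 ^ x : ℕ) : ℝ) = (2 : ℝ) ^ (x : ℝ) := by
      push_cast
      rw [Real.rpow_natCast]
    rw [h2x, ← Real.rpow_mul (by norm_num), ← Real.rpow_mul (by norm_num)]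
    have hhalf : (1 / 2 : ℝ) = (2 : ℝ) ^ (-1 : ℝ) := by
      rw [Real.rpow_neg_one]; norm_num
    rw [hhalf, ← Real.rpow_add (by norm_num)]
    calc K * (2 : ℝ) ^ ((β + x) * e') * (2 : ℝ) ^ (K * √(β + x))
        ≤ (2 : ℝ) ^ (K + 1) * (2 : ℝ) ^ ((β + x) * e') * (2 : ℝ) ^ (K * √(β + x)) := by
          gcongr
      _ = (2 : ℝ) ^ ((K + 1) + (β + x) * e' + K * √(β + x)) := by
          rw [Real.rpow_add (by norm_num) _ (K * √(β + x)), Real.rpow_add (by norm_num) (K + 1) _]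
      _ ≤ (2 : ℝ) ^ (-1 + (x : ℝ) * e) := by
          apply two_rpow_mono
          nlinarith [hx.2]

/-- covering by powers -/
theorem exists_pow {q L : ℕ} (hq : 2 ≤ q) (hL : 1 ≤ L) : ∃ j : ℕ, L ≤ q ^ j ∧ q ^ j ≤ q * L := by
  refine ⟨Nat.clog q L, Nat.le_pow_clog (by omega) L, ?_⟩
  rcases Nat.lt_or_ge 1 L with h | h
  · have h1 : q ^ (Nat.clog q L).pred < L := Nat.pow_pred_clog_lt_self (by omega) h
    have h2 : 0 < Nat.clog q L := Nat.clog_pos (by omega) (by omega)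
    have h3 : Nat.clog q L = (Nat.clog q L).pred + 1 := by
      rw [Nat.pred_eq_sub_one]; omega
    rw [h3, pow_succ, mul_comm]
    exact Nat.mul_le_mul_left _ h1.le
  · have h1 : L = 1 := by omega
    subst h1
    simp
    omega

theorem step {P' P Cr : ℕ → ℕ → Prop} {beta : ℕ} {W : ℕ → ℕ} {e' e : ℝ} (hb : 1 ≤ beta)
    (he' : 0 ≤ e') (hee : e' < e) (hP' : Gr e' P') (hC : Gr e Cr)
    (hmono : ∀ L L' m, L' ≤ L → P L m → P L' m) (h1 : ∃ m, P beta m)
    (hrec : ∀ q l a m c, 1 ≤ q → 1 ≤ l → P' (beta * q) a → P (beta * l) m →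
      Cr (beta * q * l) c → P (beta * q * l) (a * m + W q * c)) : Gr e P := by
  obtain ⟨K', hK', hP'⟩ := hP'
  obtain ⟨K, hK, hC⟩ := hC
  obtain ⟨t0, ht0⟩ := h1
  have he : 0 ≤ e := by linarith
  obtain ⟨q, hq2, hq⟩ := exists_q (b := beta) hb hK' he' hee
  obtain ⟨a, ha, hPa⟩ := hP' (beta * q) (Nat.mul_pos (by omega) (by omega))
  have ha2 : (a : ℝ) ≤ (1 / 2) * (q : ℝ) ^ e := ha.trans hq
  have hq0 : (0 : ℝ) < q := by
    have : 0 < q := by omega
    exact_mod_cast this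
  have hb0 : (0 : ℝ) < beta := by exact_mod_cast hb
  set w : ℝ := (W q : ℝ) with hw
  have hw0 : 0 ≤ w := by rw [hw]; positivity
  let D : ℕ → ℝ := fun j => K * (beta : ℝ) ^ e * (2 : ℝ) ^ (K * √(Real.logb 2 ((beta * q ^ j : ℕ) : ℝ)))
  have hD0 : ∀ j, 0 ≤ D j := fun j => by positivity
  have hDm : ∀ j, D j ≤ D (j + 1) := by
    intro j
    have h1 : Real.logb 2 ((beta * q ^ j : ℕ) : ℝ) ≤ Real.logb 2 ((beta * q ^ (j + 1) : ℕ) : ℝ) := by
      apply Real.logb_le_logb_of_le (by norm_num)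
      · have : 0 < beta * q ^ j := Nat.mul_pos (by omega) (Nat.pow_pos (by omega))
        exact_mod_cast this
      · have : beta * q ^ j ≤ beta * q ^ (j + 1) :=
          Nat.mul_le_mul_left _ (Nat.pow_le_pow_right (by omega) (by omega))
        exact_mod_cast this
    have h2 := Real.sqrt_le_sqrt h1
    have h3 : K * √(Real.logb 2 ((beta * q ^ j : ℕ) : ℝ)) ≤
        K * √(Real.logb 2 ((beta * q ^ (j + 1) : ℕ) : ℝ)) := mul_le_mul_of_nonneg_left h2 hK
    have h4 := two_rpow_mono h3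
    exact mul_le_mul_of_nonneg_left h4 (by positivity)
  have key : ∀ j : ℕ, ∃ m : ℕ, P (beta * q ^ j) m ∧
      (m : ℝ) ≤ ((t0 : ℝ) + 2 * w * D j) * ((q : ℝ) ^ e) ^ j := by
    intro j
    induction j with
    | zero =>
      refine ⟨t0, by simpa using ht0, ?_⟩
      have := hD0 0
      have : 0 ≤ 2 * w * D 0 := by positivity
      simpa using this
    | succ j ih =>
      obtain ⟨m, hm, hmb⟩ := ih
      obtain ⟨c, hc, hCc⟩ := hC (beta * q ^ (j + 1))
        (Nat.mul_pos (by omega) (Nat.pow_pos (by omega)))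
      have hql : beta * q * q ^ j = beta * q ^ (j + 1) := by rw [pow_succ]; ring
      have hrec' := hrec q (q ^ j) a m c (by omega) (Nat.one_le_pow _ _ (by omega)) hPa hm
        (by rw [hql]; exact hCc)
      rw [hql] at hrec'
      refine ⟨_, hrec', ?_⟩
      have hcb : (c : ℝ) ≤ D (j + 1) * ((q : ℝ) ^ e) ^ (j + 1) := by
        refine hc.trans (le_of_eq ?_)
        have h1 : (((beta * q ^ (j + 1) : ℕ) : ℝ)) ^ e =
            (beta : ℝ) ^ e * ((q : ℝ) ^ e) ^ (j + 1) := by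
          push_cast
          rw [Real.mul_rpow hb0.le (by positivity)]
          congr 1
          rw [← Real.rpow_natCast, ← Real.rpow_natCast, ← Real.rpow_mul hq0.le,
            ← Real.rpow_mul hq0.le, mul_comm]
        rw [h1]
        show K * ((beta : ℝ) ^ e * ((q : ℝ) ^ e) ^ (j + 1)) * _ = K * (beta : ℝ) ^ e * _ * _
        ring
      push_cast
      have hqe : 0 ≤ ((q : ℝ) ^ e) := by positivity
      have h1 : (a : ℝ) * m ≤ (1 / 2) * (q : ℝ) ^ e * (((t0 : ℝ) + 2 * w * D j) * ((q : ℝ) ^ e) ^ j) := by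
        apply mul_le_mul ha2 hmb (by positivity) (by positivity)
      have h2 : w * c ≤ w * (D (j + 1) * ((q : ℝ) ^ e) ^ (j + 1)) := mul_le_mul_of_nonneg_left hcb hw0
      have h3 : (1 / 2) * (q : ℝ) ^ e * (((t0 : ℝ) + 2 * w * D j) * ((q : ℝ) ^ e) ^ j) =
          ((t0 : ℝ) / 2 + w * D j) * ((q : ℝ) ^ e) ^ (j + 1) := by
        rw [pow_succ]; ring
      have h4 : ((t0 : ℝ) / 2 + w * D j) * ((q : ℝ) ^ e) ^ (j + 1) ≤
          ((t0 : ℝ) + w * D (j + 1)) * ((q : ℝ) ^ e) ^ (j + 1) := by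
        apply mul_le_mul_of_nonneg_right _ (by positivity)
        have h5 : w * D j ≤ w * D (j + 1) := mul_le_mul_of_nonneg_left (hDm j) hw0
        have h6 : (0 : ℝ) ≤ t0 := by positivity
        linarith
      calc (a : ℝ) * m + w * c ≤ ((t0 : ℝ) + w * D (j + 1)) * ((q : ℝ) ^ e) ^ (j + 1) +
            w * (D (j + 1) * ((q : ℝ) ^ e) ^ (j + 1)) := by
            rw [h3] at h1
            linarith
        _ = ((t0 : ℝ) + 2 * w * D (j + 1)) * ((q : ℝ) ^ e) ^ (j + 1) := by ring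
  -- conclusion
  set R : ℝ := (2 : ℝ) ^ (K * √(Real.logb 2 ((beta * q : ℕ) : ℝ))) with hR
  have hR1 : 1 ≤ R := one_le_two_rpow (mul_nonneg hK (Real.sqrt_nonneg _))
  set A : ℝ := ((t0 : ℝ) + 2 * w * (K * (beta : ℝ) ^ e * R)) * (q : ℝ) ^ e with hA
  have hA0 : 0 ≤ A := by positivity
  refine ⟨max K A, le_max_of_le_left hK, ?_⟩
  intro L hL
  obtain ⟨j, hj1, hj2⟩ := exists_pow hq2 hL
  obtain ⟨m, hm, hmb⟩ := key j
  have hL0 : (0 : ℝ) < L := by exact_mod_cast hL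
  refine ⟨m, ?_, hmono _ _ _ (hj1.trans (Nat.le_mul_of_pos_left _ (by omega))) hm⟩
  have hlog : 0 ≤ Real.logb 2 (L : ℝ) := Real.logb_nonneg (by norm_num) (by exact_mod_cast hL)
  have hbq : (1 : ℝ) ≤ ((beta * q : ℕ) : ℝ) := by
    have : 1 ≤ beta * q := Nat.mul_pos (by omega) (by omega)
    exact_mod_cast this
  have hlog2 : 0 ≤ Real.logb 2 ((beta * q : ℕ) : ℝ) := Real.logb_nonneg (by norm_num) hbq
  have hD : D j ≤ K * (beta : ℝ) ^ e * R * (2 : ℝ) ^ (K * √(Real.logb 2 (L : ℝ))) := by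
    have h1 : Real.logb 2 ((beta * q ^ j : ℕ) : ℝ) ≤
        Real.logb 2 ((beta * q : ℕ) : ℝ) + Real.logb 2 (L : ℝ) := by
      rw [← Real.logb_mul (by linarith) (by linarith)]
      apply Real.logb_le_logb_of_le (by norm_num)
      · have : 0 < beta * q ^ j := Nat.mul_pos (by omega) (Nat.pow_pos (by omega))
        exact_mod_cast this
      · have : beta * q ^ j ≤ beta * q * L := by
          rw [mul_assoc]
          exact Nat.mul_le_mul_left _ hj2
        exact_mod_cast this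
    have h2 : √(Real.logb 2 ((beta * q ^ j : ℕ) : ℝ)) ≤
        √(Real.logb 2 ((beta * q : ℕ) : ℝ)) + √(Real.logb 2 (L : ℝ)) :=
      (Real.sqrt_le_sqrt h1).trans (sqrt_add_le' hlog2 hlog)
    have h3 : (2 : ℝ) ^ (K * √(Real.logb 2 ((beta * q ^ j : ℕ) : ℝ))) ≤
        R * (2 : ℝ) ^ (K * √(Real.logb 2 (L : ℝ))) := by
      rw [hR, ← Real.rpow_add (by norm_num), ← mul_add]
      exact two_rpow_mono (mul_le_mul_of_nonneg_left h2 hK)
    calc D j ≤ K * (beta : ℝ) ^ e * (R * (2 : ℝ) ^ (K * √(Real.logb 2 (L : ℝ)))) :=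
          mul_le_mul_of_nonneg_left h3 (by positivity)
      _ = _ := by ring
  have hE1 : 1 ≤ (2 : ℝ) ^ (K * √(Real.logb 2 (L : ℝ))) :=
    one_le_two_rpow (mul_nonneg hK (Real.sqrt_nonneg _))
  have hpow : ((q : ℝ) ^ e) ^ j ≤ (q : ℝ) ^ e * (L : ℝ) ^ e := by
    have h1 : ((q : ℝ) ^ e) ^ j = ((q : ℝ) ^ j) ^ e := by
      rw [← Real.rpow_natCast, ← Real.rpow_natCast, ← Real.rpow_mul hq0.le,
        ← Real.rpow_mul hq0.le, mul_comm]
    rw [h1, ← Real.mul_rpow hq0.le hL0.le]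
    apply Real.rpow_le_rpow (by positivity) _ he
    exact_mod_cast hj2
  calc (m : ℝ) ≤ ((t0 : ℝ) + 2 * w * D j) * ((q : ℝ) ^ e) ^ j := hmb
    _ ≤ ((t0 : ℝ) + 2 * w * (K * (beta : ℝ) ^ e * R * (2 : ℝ) ^ (K * √(Real.logb 2 (L : ℝ))))) *
        ((q : ℝ) ^ e * (L : ℝ) ^ e) := by
        apply mul_le_mul _ hpow (by positivity) (by positivity)
        have := mul_le_mul_of_nonneg_left hD (show 0 ≤ 2 * w by positivity)
        linarith
    _ ≤ (((t0 : ℝ) + 2 * w * (K * (beta : ℝ) ^ e * R)) *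
          (2 : ℝ) ^ (K * √(Real.logb 2 (L : ℝ)))) * ((q : ℝ) ^ e * (L : ℝ) ^ e) := by
        apply mul_le_mul_of_nonneg_right _ (by positivity)
        have h6 : (0 : ℝ) ≤ t0 := by positivity
        nlinarith [mul_le_mul_of_nonneg_left hE1 h6]
    _ = A * (L : ℝ) ^ e * (2 : ℝ) ^ (K * √(Real.logb 2 (L : ℝ))) := by rw [hA]; ring
    _ ≤ max K A * (L : ℝ) ^ e * (2 : ℝ) ^ (max K A * √(Real.logb 2 (L : ℝ))) := by
        apply mul_le_mul
        · exact mul_le_mul_of_nonneg_right (le_max_right _ _) (by positivity)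
        · exact two_rpow_mono (mul_le_mul_of_nonneg_right (le_max_left _ _) (Real.sqrt_nonneg _))
        · positivity
        · exact mul_nonneg (le_max_of_le_left hK) (by positivity)

theorem of_pow {P : ℕ → ℕ → Prop} {B : ℕ} {A e : ℝ} (hB : 2 ≤ B) (hA : 0 ≤ A) (he : 0 ≤ e)
    (hmono : ∀ L L' m, L' ≤ L → P L m → P L' m)
    (h : ∀ i : ℕ, ∃ m : ℕ, (m : ℝ) ≤ A * ((B : ℝ) ^ i) ^ e * (2 : ℝ) ^ (A * √(i : ℝ)) ∧ P (B ^ i) m) :
    Gr e P := by
  have hB0 : (0 : ℝ) < B := by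
    have : 0 < B := by omega
    exact_mod_cast this
  set C : ℝ := A * (B : ℝ) ^ e * (2 : ℝ) ^ A with hC
  have hC0 : 0 ≤ C := by positivity
  refine ⟨max C A, le_max_of_le_left hC0, ?_⟩
  intro L hL
  obtain ⟨j, hj1, hj2⟩ := exists_pow hB hL
  obtain ⟨m, hmb, hm⟩ := h j
  refine ⟨m, ?_, hmono _ _ _ hj1 hm⟩
  have hL0 : (0 : ℝ) < L := by exact_mod_cast hL
  have hlog : 0 ≤ Real.logb 2 (L : ℝ) := Real.logb_nonneg (by norm_num) (by exact_mod_cast hL)
  -- j ≤ 1 + logb 2 L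
  have hjl : (j : ℝ) ≤ 1 + Real.logb 2 L := by
    rcases Nat.eq_zero_or_pos j with h0 | h0
    · rw [h0]
      push_cast
      linarith
    · have h1 : B ^ (j - 1) ≤ L := by
        have h2 : B ^ j = B * B ^ (j - 1) := by
          rw [← pow_succ']
          congr 1
          omega
        rw [h2] at hj2
        exact Nat.le_of_mul_le_mul_left hj2 (by omega)
      have h2 : 2 ^ (j - 1) ≤ L := (Nat.pow_le_pow_left hB _).trans h1
      have h3 : ((j - 1 : ℕ) : ℝ) ≤ Real.logb 2 L := by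
        rw [Real.le_logb_iff_rpow_le (by norm_num) hL0, Real.rpow_natCast]
        exact_mod_cast h2
      have h4 : ((j - 1 : ℕ) : ℝ) = (j : ℝ) - 1 := by
        rw [Nat.cast_sub h0]; norm_num
      linarith
  have hs : √(j : ℝ) ≤ 1 + √(Real.logb 2 L) := by
    have h1 := (Real.sqrt_le_sqrt hjl).trans (sqrt_add_le' (by norm_num) hlog)
    rw [Real.sqrt_one] at h1
    exact h1
  have hpow : ((B : ℝ) ^ j) ^ e ≤ (B : ℝ) ^ e * (L : ℝ) ^ e := by
    rw [← Real.mul_rpow hB0.le hL0.le]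
    apply Real.rpow_le_rpow (by positivity) _ he
    exact_mod_cast hj2
  have h2 : (2 : ℝ) ^ (A * √(j : ℝ)) ≤ (2 : ℝ) ^ A * (2 : ℝ) ^ (A * √(Real.logb 2 L)) := by
    rw [← Real.rpow_add (by norm_num)]
    apply two_rpow_mono
    have := mul_le_mul_of_nonneg_left hs hA
    linarith
  calc (m : ℝ) ≤ A * ((B : ℝ) ^ j) ^ e * (2 : ℝ) ^ (A * √(j : ℝ)) := hmb
    _ ≤ A * ((B : ℝ) ^ e * (L : ℝ) ^ e) * ((2 : ℝ) ^ A * (2 : ℝ) ^ (A * √(Real.logb 2 L))) := by
        apply mul_le_mul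
        · exact mul_le_mul_of_nonneg_left hpow hA
        · exact h2
        · positivity
        · positivity
    _ = C * (L : ℝ) ^ e * (2 : ℝ) ^ (A * √(Real.logb 2 L)) := by rw [hC]; ring
    _ ≤ max C A * (L : ℝ) ^ e * (2 : ℝ) ^ (max C A * √(Real.logb 2 L)) := by
        apply mul_le_mul
        · exact mul_le_mul_of_nonneg_right (le_max_left _ _) (by positivity)
        · exact two_rpow_mono (mul_le_mul_of_nonneg_right (le_max_right _ _) (Real.sqrt_nonneg _))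
        · positivity
        · exact mul_nonneg (le_max_of_le_left hC0) (by positivity)

theorem final {P : ℕ → ℕ → Prop} {dn : ℕ → ℕ} {B : ℕ} {e : ℝ} (h : Gr e P) (he : 0 ≤ e)
    (hd : ∀ n L m, n ≤ 2 ^ L → P L m → dn n ≤ B * m) :
    ∃ K : ℝ, 0 < K ∧ ∀ n : ℕ, 2 ≤ n →
      (dn n : ℝ) ≤ K * (Real.logb 2 n) ^ e * (2 : ℝ) ^ (K * √(Real.logb 2 (Real.logb 2 n))) := by
  obtain ⟨K, hK, h⟩ := h
  set C : ℝ := (B : ℝ) * K * (2 : ℝ) ^ e * (2 : ℝ) ^ K with hC
  have hC0 : 0 ≤ C := by positivity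
  refine ⟨max C K + 1, by have := le_max_of_le_left (c := K) hC0; linarith, ?_⟩
  intro n hn
  have hn0 : (0 : ℝ) < n := by
    have : 0 < n := by omega
    exact_mod_cast this
  set x : ℝ := Real.logb 2 n with hx
  have hx1 : 1 ≤ x := by
    rw [hx, Real.le_logb_iff_rpow_le (by norm_num) hn0, Real.rpow_one]
    exact_mod_cast hn
  have hy0 : 0 ≤ Real.logb 2 x := Real.logb_nonneg (by norm_num) hx1
  obtain ⟨L, hL1, hL2⟩ : ∃ L : ℕ, n ≤ 2 ^ L ∧ 2 ^ L ≤ 2 * n := exists_pow (by norm_num) (by omega)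
  have hLpos : 1 ≤ L := by
    rcases Nat.eq_zero_or_pos L with h0 | h0
    · rw [h0] at hL1; simp at hL1; omega
    · exact h0
  have hLx : (L : ℝ) ≤ 2 * x := by
    have h1 : (L : ℝ) ≤ Real.logb 2 (2 * n) := by
      rw [Real.le_logb_iff_rpow_le (by norm_num) (by positivity), Real.rpow_natCast]
      exact_mod_cast hL2
    rw [Real.logb_mul (by norm_num) (by linarith), Real.logb_self_eq_one (by norm_num)] at h1
    linarith
  have hL0 : (0 : ℝ) < L := by exact_mod_cast hLpos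
  obtain ⟨m, hmb, hm⟩ := h L hLpos
  have hdn := hd n L m hL1 hm
  have hdn' : (dn n : ℝ) ≤ B * m := by exact_mod_cast hdn
  have hlL : Real.logb 2 (L : ℝ) ≤ 1 + Real.logb 2 x := by
    have h1 : Real.logb 2 (L : ℝ) ≤ Real.logb 2 (2 * x) :=
      Real.logb_le_logb_of_le (by norm_num) hL0 hLx
    rwa [Real.logb_mul (by norm_num) (by linarith), Real.logb_self_eq_one (by norm_num)] at h1
  have hs : √(Real.logb 2 (L : ℝ)) ≤ 1 + √(Real.logb 2 x) := by
    have h1 := (Real.sqrt_le_sqrt hlL).trans (sqrt_add_le' (by norm_num) hy0)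
    rw [Real.sqrt_one] at h1
    exact h1
  have h2 : (2 : ℝ) ^ (K * √(Real.logb 2 (L : ℝ))) ≤ (2 : ℝ) ^ K * (2 : ℝ) ^ (K * √(Real.logb 2 x)) := by
    rw [← Real.rpow_add (by norm_num)]
    apply two_rpow_mono
    have := mul_le_mul_of_nonneg_left hs hK
    linarith
  have hpow : (L : ℝ) ^ e ≤ (2 : ℝ) ^ e * x ^ e := by
    rw [← Real.mul_rpow (by norm_num) (by linarith)]
    exact Real.rpow_le_rpow hL0.le hLx he
  have hx0 : 0 ≤ x := by linarith
  have hm2 : (m : ℝ) ≤ K * ((2 : ℝ) ^ e * x ^ e) * ((2 : ℝ) ^ K * (2 : ℝ) ^ (K * √(Real.logb 2 x))) := by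
    refine hmb.trans ?_
    apply mul_le_mul
    · exact mul_le_mul_of_nonneg_left hpow hK
    · exact h2
    · positivity
    · positivity
  have hmax : C ≤ max C K + 1 := by have := le_max_left C K; linarith
  have hmax2 : K ≤ max C K + 1 := by have := le_max_right C K; linarith
  calc (dn n : ℝ) ≤ B * m := hdn'
    _ ≤ B * (K * ((2 : ℝ) ^ e * x ^ e) * ((2 : ℝ) ^ K * (2 : ℝ) ^ (K * √(Real.logb 2 x)))) :=
        mul_le_mul_of_nonneg_left hm2 (by positivity)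
    _ = C * x ^ e * (2 : ℝ) ^ (K * √(Real.logb 2 x)) := by rw [hC]; ring
    _ ≤ (max C K + 1) * x ^ e * (2 : ℝ) ^ ((max C K + 1) * √(Real.logb 2 x)) := by
        apply mul_le_mul
        · exact mul_le_mul_of_nonneg_right hmax (by positivity)
        · exact two_rpow_mono (mul_le_mul_of_nonneg_right hmax2 (Real.sqrt_nonneg _))
        · positivity
        · exact mul_nonneg (by linarith) (by positivity)

end H78Gw
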